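import Pool.Agent.Helper96.CT.Stmts

/-! Row BR: the theorem of Brooks for maximum degree `d ≥ 3` (Zajac's proof; the file follows
Helper35/Inj/Brooks.lean, which treats `d = 3`). -/

set_option autoImplicit false

namespace Pool.Agent.Helper51.CT

open Classical Finset

variable {V : Type} {E : V → V → Prop} {d : ℕ}

/-- degree in `U` -/
noncomputable def dg (U : Finset V) (E : V → V → Prop) (v : V) : ℕ := (U.filter fun w => E v w).card

/-- proper colourability of `E` on `U` with `d` colours -/
def Cold (d : ℕ) (U : Finset V) (E : V → V → Prop) : Prop :=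
  ∃ c : V → Fin d, ∀ u ∈ U, ∀ v ∈ U, E u v → c u ≠ c v

/-- no `d + 1` pairwise adjacent vertices in `U` -/
def NoK (d : ℕ) (U : Finset V) (E : V → V → Prop) : Prop :=
  ¬ ∃ Q ⊆ U, Q.card = d + 1 ∧ ∀ x ∈ Q, ∀ y ∈ Q, x ≠ y → E x y

/-- proper on `S` -/
def Pr (E : V → V → Prop) (S : Finset V) (c : V → Fin d) : Prop := ∀ u ∈ S, ∀ v ∈ S, E u v → c u ≠ c v

/-- extension by one vertex -/
theorem ext1 (hs : ∀ u v, E u v → E v u) (hi : ∀ u, ¬ E u u) {S : Finset V} {c : V → Fin d} (hc : Pr E S c) {v : V}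
    (hv : v ∉ S) (h : ((S.filter fun w => E v w).image c).card < d) :
    ∃ c' : V → Fin d, (∀ s ∈ S, c' s = c s) ∧ Pr E (insert v S) c' := by
  obtain ⟨a, ha⟩ : ∃ a : Fin d, a ∉ (S.filter fun w => E v w).image c := by
    by_contra hcon
    push Not at hcon
    have h1 : (S.filter fun w => E v w).image c = univ := eq_univ_iff_forall.mpr hcon
    rw [h1] at h
    simp at h
  have hne : ∀ s ∈ S, s ≠ v := fun s hs' e => hv (e ▸ hs')
  refine ⟨Function.update c v a, fun s hs' => Function.update_of_ne (hne s hs') _ _, ?_⟩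
  have key : ∀ w ∈ S, E v w → a ≠ c w := by
    intro w hw e g
    exact ha (mem_image.mpr ⟨w, mem_filter.mpr ⟨hw, e⟩, g.symm⟩)
  intro x hx y hy e
  rw [mem_insert] at hx hy
  rcases hx with rfl | hx
  · rcases hy with rfl | hy
    · exact absurd e (hi _)
    · rw [Function.update_self, Function.update_of_ne (hne y hy)]
      exact key y hy e
  · rcases hy with rfl | hy
    · rw [Function.update_self, Function.update_of_ne (hne x hx)]
      exact (key x hx (hs _ _ e)).symm
    · rw [Function.update_of_ne (hne x hx), Function.update_of_ne (hne y hy)]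
      exact hc x hx y hy e

/-- the number of colours around a vertex with an uncoloured neighbour -/
theorem col_le {U S : Finset V} (hS : S ⊆ U) {v w : V} (hd : dg U E v ≤ d) (hw : w ∈ U) (hwS : w ∉ S) (hE : E v w)
    (c : V → Fin d) : ((S.filter fun w => E v w).image c).card < d := by
  refine card_image_le.trans_lt ?_
  have h1 : (S.filter fun w => E v w) ⊆ (U.filter fun w => E v w).erase w := by
    intro x hx
    rw [mem_filter] at hx
    rw [mem_erase, mem_filter]
    exact ⟨fun e => hwS (e ▸ hx.1), hS hx.1, hx.2⟩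
  have h2 := card_le_card h1
  have h3 : w ∈ U.filter fun w => E v w := mem_filter.mpr ⟨hw, hE⟩
  rw [card_erase_of_mem h3] at h2
  have h5 := card_pos.mpr ⟨w, h3⟩
  have h4 : (U.filter fun w => E v w).card ≤ d := hd
  omega

/-- two neighbours of the same colour -/
theorem col_le2 {U S : Finset V} (hS : S ⊆ U) {v x y : V} (hd : dg U E v ≤ d) (hx : x ∈ U) (hy : y ∈ U) (hxy : x ≠ y)
    (hEx : E v x) (hEy : E v y) {c : V → Fin d} (hc : c x = c y) :
    ((S.filter fun w => E v w).image c).card < d := by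
  have h0 : (S.filter fun w => E v w).image c ⊆ ((U.filter fun w => E v w).erase x).image c := by
    intro a ha
    rw [mem_image] at ha
    obtain ⟨w, hw, rfl⟩ := ha
    rw [mem_filter] at hw
    by_cases e : w = x
    · rw [e, hc]
      exact mem_image_of_mem _ (mem_erase.mpr ⟨hxy.symm, mem_filter.mpr ⟨hy, hEy⟩⟩)
    · exact mem_image_of_mem _ (mem_erase.mpr ⟨e, mem_filter.mpr ⟨hS hw.1, hw.2⟩⟩)
  refine ((card_le_card h0).trans card_image_le).trans_lt ?_
  have h3 : x ∈ U.filter fun w => E v w := mem_filter.mpr ⟨hx, hEx⟩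
  rw [card_erase_of_mem h3]
  have h5 := card_pos.mpr ⟨x, h3⟩
  have h4 : (U.filter fun w => E v w).card ≤ d := hd
  omega

/-- greedy colouring in the order of decreasing rank -/
theorem greedy (hs : ∀ u v, E u v → E v u) (hi : ∀ u, ¬ E u u) {U : Finset V} (hd : ∀ v ∈ U, dg U E v ≤ d)
    (rk : V → ℕ) : ∀ (n : ℕ) (W S : Finset V) (c : V → Fin d), W.card = n → W ⊆ U → S ⊆ U → Disjoint S W →
    Pr E S c → (∀ w ∈ W, ∃ w' ∈ U, w' ∉ S ∧ E w w' ∧ (w' ∉ W ∨ rk w' < rk w)) →
      ∃ c' : V → Fin d, (∀ s ∈ S, c' s = c s) ∧ Pr E (S ∪ W) c' := by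
  intro n
  induction n with
  | zero =>
    intro W S c hn _ _ _ hc _
    rw [card_eq_zero] at hn
    exact ⟨c, fun _ _ => rfl, by rw [hn, union_empty]; exact hc⟩
  | succ n ih =>
    intro W S c hn hW hS hdis hc hw
    have hne : W.Nonempty := card_pos.mp (by omega)
    obtain ⟨w, hwW, hmax⟩ := exists_max_image W rk hne
    have hwS : w ∉ S := fun h => disjoint_left.mp hdis h hwW
    obtain ⟨w', hw'U, hw'S, hE, _⟩ := hw w hwW
    obtain ⟨c1, h1, h2⟩ := ext1 hs hi hc hwS (col_le hS (hd w (hW hwW)) hw'U hw'S hE c)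
    have hW1 : W.erase w ⊆ W := erase_subset _ _
    obtain ⟨c2, h3, h4⟩ := ih (W.erase w) (insert w S) c1 (by rw [card_erase_of_mem hwW]; omega) (hW1.trans hW)
      (insert_subset (hW hwW) hS) (by
        rw [disjoint_left]
        intro x hx hx'
        rw [mem_insert] at hx
        rcases hx with rfl | hx
        · exact (mem_erase.mp hx').1 rfl
        · exact disjoint_left.mp hdis hx (hW1 hx')) h2 (by
        intro x hx
        obtain ⟨x', a1, a2, a3, a4⟩ := hw x (hW1 hx)
        refine ⟨x', a1, ?_, a3, ?_⟩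
        · rw [mem_insert, not_or]
          refine ⟨fun e => ?_, a2⟩
          rcases a4 with a4 | a4
          · exact a4 (e ▸ hwW)
          · rw [e] at a4
            exact absurd (hmax x (hW1 hx)) (not_le.mpr a4)
        · rcases a4 with a4 | a4
          · exact Or.inl fun h => a4 (hW1 h)
          · exact Or.inr a4)
    refine ⟨c2, fun s hs' => (h3 s (mem_insert_of_mem hs')).trans (h1 s hs'), ?_⟩
    have e1 : insert w S ∪ W.erase w = S ∪ W := by
      rw [insert_union, ← union_insert, insert_erase hwW]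
    rwa [e1] at h4

/-- a path starting with `v1, v2, v3` -/
structure Pth (E : V → V → Prop) (U : Finset V) (v1 v2 v3 : V) (r : ℕ) (p : ℕ → V) : Prop where
  three : 3 ≤ r
  p0 : p 0 = v1
  p1 : p 1 = v2
  p2 : p 2 = v3
  mem : ∀ i < r, p i ∈ U
  inj : ∀ i < r, ∀ j < r, p i = p j → i = j
  adj : ∀ i, i + 1 < r → E (p i) (p (i + 1))

theorem Pth.card_le {U : Finset V} {v1 v2 v3 : V} {r : ℕ} {p : ℕ → V} (h : Pth E U v1 v2 v3 r p) : r ≤ U.card := by
  have h1 : ((range r).image p).card = r := by
    rw [card_image_of_injOn, card_range]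
    intro i hi j hj e
    exact h.inj i (by simpa using hi) j (by simpa using hj) e
  rw [← h1]
  apply card_le_card
  intro x hx
  rw [mem_image] at hx
  obtain ⟨i, hi, rfl⟩ := hx
  exact h.mem i (mem_range.mp hi)

/-- a path of maximal length: all neighbours of its end are on the path -/
theorem exists_max {U : Finset V} {v1 v2 v3 : V} (h1 : v1 ∈ U) (h2 : v2 ∈ U) (h3 : v3 ∈ U) (h12 : v1 ≠ v2)
    (h13 : v1 ≠ v3) (h23 : v2 ≠ v3) (e12 : E v1 v2) (e23 : E v2 v3) :
    ∃ r p, Pth E U v1 v2 v3 r p ∧ ∀ w ∈ U, E (p (r - 1)) w → ∃ i < r, p i = w := by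
  have hne : ({r : ℕ | ∃ p, Pth E U v1 v2 v3 r p} : Set ℕ).Nonempty := by
    refine ⟨3, fun i => if i = 0 then v1 else if i = 1 then v2 else v3, le_rfl, rfl, rfl, rfl, ?_, ?_, ?_⟩
    · intro i hi
      split_ifs <;> assumption
    · intro i hi j hj
      interval_cases i <;> interval_cases j <;> simp [h12, h13, h23, h12.symm, h13.symm, h23.symm]
    · intro i hi
      have hi' : i < 2 := by omega
      interval_cases i
      · simpa using e12
      · simpa using e23
  have hbd : BddAbove ({r : ℕ | ∃ p, Pth E U v1 v2 v3 r p} : Set ℕ) := by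
    refine ⟨U.card, ?_⟩
    rintro r ⟨p, hp⟩
    exact hp.card_le
  obtain ⟨p, hp⟩ := Nat.sSup_mem hne hbd
  obtain ⟨r, hr⟩ : ∃ r, r = sSup ({r : ℕ | ∃ p, Pth E U v1 v2 v3 r p} : Set ℕ) := ⟨_, rfl⟩
  rw [← hr] at hp
  refine ⟨r, p, hp, fun w hw hE => ?_⟩
  by_contra hcon
  push Not at hcon
  have hr3 := hp.three
  have h4 : Pth E U v1 v2 v3 (r + 1) (fun i => if i = r then w else p i) := by
    refine ⟨by omega, ?_, ?_, ?_, ?_, ?_, ?_⟩
    · rw [if_neg (by omega)]
      exact hp.p0
    · rw [if_neg (by omega)]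
      exact hp.p1
    · rw [if_neg (by omega)]
      exact hp.p2
    · intro i hi
      split_ifs with h
      · exact hw
      · exact hp.mem i (by omega)
    · intro i hi j hj
      split_ifs with a b b
      · intro _
        omega
      · intro e
        exact absurd e.symm (hcon j (by omega))
      · intro e
        exact absurd e (hcon i (by omega))
      · intro e
        exact hp.inj i (by omega) j (by omega) e
    · intro i hi
      rw [if_neg (by omega : i ≠ r)]
      split_ifs with a
      · have e : i = r - 1 := by omega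
        rw [e]
        exact hE
      · exact hp.adj i (by omega)
  have h5 : r + 1 ≤ sSup ({r : ℕ | ∃ p, Pth E U v1 v2 v3 r p} : Set ℕ) := le_csSup hbd ⟨_, h4⟩
  omega

theorem dg_mono {U U' : Finset V} (h : U' ⊆ U) (v : V) : dg U' E v ≤ dg U E v :=
  card_le_card (filter_subset_filter _ h)

theorem nk_mono {U U' : Finset V} (h : U' ⊆ U) (hk : NoK d U E) : NoK d U' E := by
  rintro ⟨Q, hQ, hh⟩
  exact hk ⟨Q, hQ.trans h, hh⟩

/-- index along the path -/
noncomputable def idx (r : ℕ) (p : ℕ → V) (v : V) : ℕ := if h : ∃ i < r, p i = v then h.choose else 0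

theorem Pth.idx_eq {U : Finset V} {v1 v2 v3 : V} {r : ℕ} {p : ℕ → V} (h : Pth E U v1 v2 v3 r p) {i : ℕ} (hi : i < r) :
    idx r p (p i) = i := by
  have h1 : ∃ k < r, p k = p i := ⟨i, hi, rfl⟩
  unfold idx
  rw [dif_pos h1]
  exact h.inj _ h1.choose_spec.1 i hi h1.choose_spec.2

/-- the Hamiltonian case -/
theorem ham [NeZero d] (hs : ∀ u v, E u v → E v u) (hi : ∀ u, ¬ E u u) {U : Finset V} (hd : ∀ v ∈ U, dg U E v ≤ d)
    (hd3 : ∀ v ∈ U, 3 ≤ dg U E v) {v1 v2 v3 : V} (h13 : ¬ E v1 v3) {r : ℕ} {p : ℕ → V}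
    (hp : Pth E U v1 v2 v3 r p) (hr : ∀ u ∈ U, ∃ i < r, p i = u) : Cold d U E := by
  have r3 := hp.three
  have m0 := hp.mem 0 (by omega)
  have m1 := hp.mem 1 (by omega)
  have m2 := hp.mem 2 (by omega)
  have e10 : E (p 1) (p 0) := hs _ _ (hp.adj 0 (by omega))
  have e12 : E (p 1) (p 2) := hp.adj 1 (by omega)
  have n02 : p 0 ≠ p 2 := fun e => by
    have := hp.inj 0 (by omega) 2 (by omega) e
    omega
  have n01 : p 0 ≠ p 1 := fun e => by
    have := hp.inj 0 (by omega) 1 (by omega) e
    omega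
  have n12 : p 1 ≠ p 2 := fun e => by
    have := hp.inj 1 (by omega) 2 (by omega) e
    omega
  -- the third neighbour
  obtain ⟨j, hj, hj3, hjE⟩ : ∃ j < r, 3 ≤ j ∧ E (p 1) (p j) := by
    have h1 : 3 ≤ (U.filter fun w => E (p 1) w).card := hd3 _ m1
    have h2 : ({p 0, p 2} : Finset V).card < (U.filter fun w => E (p 1) w).card := by
      rw [card_pair n02]
      omega
    obtain ⟨u, hu, hu'⟩ := exists_mem_notMem_of_card_lt_card h2
    rw [mem_filter] at hu
    obtain ⟨j, hj, rfl⟩ := hr u hu.1
    refine ⟨j, hj, ?_, hu.2⟩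
    by_contra hcon
    have hj3 : j < 3 := by omega
    interval_cases j
    · exact hu' (by simp)
    · exact hi _ hu.2
    · exact hu' (by simp)
  have hS0 : Pr E {p 0, p 2} (fun _ => (0 : Fin d)) := by
    have h20 : ¬ E (p 0) (p 2) := by
      rw [hp.p0, hp.p2]
      exact h13
    intro x hx y hy e
    simp only [mem_insert, mem_singleton] at hx hy
    rcases hx with rfl | rfl <;> rcases hy with rfl | rfl
    · exact absurd e (hi _)
    · exact absurd e h20
    · exact absurd (hs _ _ e) h20
    · exact absurd e (hi _)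
  have hS0U : ({p 0, p 2} : Finset V) ⊆ U := by
    intro x hx
    simp only [mem_insert, mem_singleton] at hx
    rcases hx with rfl | rfl
    · exact m0
    · exact m2
  obtain ⟨c, hc1, hc2⟩ := greedy hs hi hd (fun v => if idx r p v < j then 2 * r - idx r p v else idx r p v) _
    (U \ {p 0, p 1, p 2}) {p 0, p 2} (fun _ => 0) rfl sdiff_subset hS0U (by
      rw [disjoint_left]
      intro x hx hx'
      rw [mem_sdiff] at hx'
      apply hx'.2
      simp only [mem_insert, mem_singleton] at hx ⊢
      tauto) hS0 (by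
      intro w hw
      rw [mem_sdiff] at hw
      obtain ⟨k, hk, rfl⟩ := hr w hw.1
      have hk3 : 3 ≤ k := by
        by_contra hcon
        have hk3 : k < 3 := by omega
        apply hw.2
        interval_cases k <;> simp
      have out : ∀ l < r, l ≠ 0 → l ≠ 2 → p l ∉ ({p 0, p 2} : Finset V) := by
        intro l hl a b g
        simp only [mem_insert, mem_singleton] at g
        rcases g with g | g
        · exact a (hp.inj l hl 0 (by omega) g)
        · exact b (hp.inj l hl 2 (by omega) g)
      rcases lt_trichotomy k j with h | h | h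
      · refine ⟨p (k + 1), hp.mem _ (by omega), out _ (by omega) (by omega) (by omega), hp.adj k (by omega), Or.inr ?_⟩
        beta_reduce
        rw [hp.idx_eq hk, hp.idx_eq (by omega : k + 1 < r), if_pos h]
        split_ifs <;> omega
      · refine ⟨p 1, m1, out 1 (by omega) (by omega) (by omega), ?_, Or.inl ?_⟩
        · rw [h]
          exact hs _ _ hjE
        · simp
      · refine ⟨p (k - 1), hp.mem _ (by omega), out _ (by omega) (by omega) (by omega), ?_, Or.inr ?_⟩
        · have h1 := hp.adj (k - 1) (by omega)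
          rw [show k - 1 + 1 = k by omega] at h1
          exact hs _ _ h1
        · beta_reduce
          rw [hp.idx_eq hk, hp.idx_eq (by omega : k - 1 < r), if_neg (by omega : ¬ k < j),
            if_neg (by omega : ¬ k - 1 < j)]
          omega)
  have hS : ({p 0, p 2} ∪ U \ {p 0, p 1, p 2} : Finset V) = U.erase (p 1) := by
    ext x
    simp only [mem_union, mem_insert, mem_singleton, mem_sdiff, mem_erase, not_or]
    constructor
    · rintro ((rfl | rfl) | h)
      · exact ⟨n01, m0⟩
      · exact ⟨n12.symm, m2⟩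
      · exact ⟨h.2.2.1, h.1⟩
    · rintro ⟨a, b⟩
      by_cases h0 : x = p 0
      · exact Or.inl (Or.inl h0)
      · by_cases h2 : x = p 2
        · exact Or.inl (Or.inr h2)
        · exact Or.inr ⟨b, h0, a, h2⟩
  rw [hS] at hc2
  have hc02 : c (p 0) = c (p 2) := by
    rw [hc1 _ (by simp), hc1 _ (by simp)]
  obtain ⟨c', _, h2⟩ := ext1 hs hi hc2 (notMem_erase _ _)
    (col_le2 (erase_subset _ _) (hd _ m1) m0 m2 n02 e10 e12 hc02)
  rw [insert_erase m1] at h2
  exact ⟨c', h2⟩

/-- the cycle case -/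
theorem cyc (hs : ∀ u v, E u v → E v u) (hi : ∀ u, ¬ E u u) {U : Finset V} (hd : ∀ v ∈ U, dg U E v ≤ d)
    {v1 v2 v3 : V} {r : ℕ} {p : ℕ → V} (hp : Pth E U v1 v2 v3 r p) {j i : ℕ} (hjr : E (p (r - 1)) (p j))
    {C : Finset V} (hC : C = (Ico j r).image p) (hji : j ≤ i) (hir : i + 1 < r) {u : V} (hu : u ∈ U) (huC : u ∉ C)
    (hiu : E (p i) u) (ha : ∀ w ∈ U, w ∉ C → ¬ E (p (i + 1)) w) {c : V → Fin d} (hc : Pr E (U \ C) c) :
    Cold d U E := by
  have memC : ∀ k, j ≤ k → k < r → p k ∈ C := by
    intro k h1 h2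
    rw [hC]
    exact mem_image_of_mem _ (mem_Ico.mpr ⟨h1, h2⟩)
  have hCU : C ⊆ U := by
    rw [hC]
    intro x hx
    obtain ⟨k, hk, rfl⟩ := mem_image.mp hx
    exact hp.mem k (mem_Ico.mp hk).2
  have aC : p (i + 1) ∈ C := memC _ (by omega) hir
  have bC : p i ∈ C := memC _ hji (by omega)
  have aU := hCU aC
  have bU := hCU bC
  have eba : E (p i) (p (i + 1)) := hp.adj i hir
  have nab : p (i + 1) ≠ p i := fun e => by
    have := hp.inj _ hir _ (by omega) e
    omega
  have nau : p (i + 1) ≠ u := fun e => huC (e ▸ aC)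
  have hne : ∀ x ∈ U \ C, x ≠ p (i + 1) := fun x hx e => (mem_sdiff.mp hx).2 (e ▸ aC)
  have hS : Pr E (insert (p (i + 1)) (U \ C)) (Function.update c (p (i + 1)) (c u)) := by
    intro x hx y hy e
    rw [mem_insert] at hx hy
    rcases hx with rfl | hx
    · rcases hy with rfl | hy
      · exact absurd e (hi _)
      · exact absurd e (ha y (mem_sdiff.mp hy).1 (mem_sdiff.mp hy).2)
    · rcases hy with rfl | hy
      · exact absurd (hs _ _ e) (ha x (mem_sdiff.mp hx).1 (mem_sdiff.mp hx).2)
      · rw [Function.update_of_ne (hne x hx), Function.update_of_ne (hne y hy)]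
        exact hc x hx y hy e
  have hSU : insert (p (i + 1)) (U \ C) ⊆ U := insert_subset aU sdiff_subset
  have hW : C \ {p i, p (i + 1)} ⊆ U := sdiff_subset.trans hCU
  obtain ⟨c1, hc1, hc2⟩ := greedy hs hi hd (fun v => if i + 2 ≤ idx r p v then 3 * r - idx r p v else r - idx r p v) _
    (C \ {p i, p (i + 1)}) (insert (p (i + 1)) (U \ C)) _ rfl hW hSU (by
      rw [disjoint_left]
      intro x hx hx'
      rw [mem_sdiff] at hx'
      rw [mem_insert] at hx
      rcases hx with rfl | hx
      · exact hx'.2 (by simp)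
      · exact (mem_sdiff.mp hx).2 hx'.1) hS (by
      intro w hw
      rw [mem_sdiff] at hw
      have hw1 := hw.1
      rw [hC, mem_image] at hw1
      obtain ⟨k, hk, rfl⟩ := hw1
      rw [mem_Ico] at hk
      have hki : k ≠ i := fun e => hw.2 (by simp [e])
      have hki1 : k ≠ i + 1 := fun e => hw.2 (by simp [e])
      have out : ∀ l, j ≤ l → l < r → l ≠ i + 1 → p l ∉ insert (p (i + 1)) (U \ C) := by
        intro l a b b' g
        rw [mem_insert] at g
        rcases g with g | g
        · exact b' (hp.inj l b _ hir g)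
        · exact (mem_sdiff.mp g).2 (memC l a b)
      by_cases h : k < i
      · refine ⟨p (k + 1), hp.mem _ (by omega), out _ (by omega) (by omega) (by omega), hp.adj k (by omega), ?_⟩
        by_cases h' : k + 1 = i
        · left
          rw [h', mem_sdiff]
          simp
        · right
          beta_reduce
          rw [hp.idx_eq hk.2, hp.idx_eq (by omega : k + 1 < r), if_neg (by omega), if_neg (by omega)]
          omega
      · by_cases h' : k + 1 < r
        · refine ⟨p (k + 1), hp.mem _ h', out _ (by omega) (by omega) (by omega), hp.adj k h', Or.inr ?_⟩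
          beta_reduce
          rw [hp.idx_eq hk.2, hp.idx_eq h', if_pos (by omega), if_pos (by omega)]
          omega
        · have ek : k = r - 1 := by omega
          refine ⟨p j, hp.mem _ (by omega), out _ le_rfl (by omega) (by omega), by rw [ek]; exact hjr, ?_⟩
          by_cases hj : j = i
          · left
            rw [hj, mem_sdiff]
            simp
          · right
            beta_reduce
            rw [hp.idx_eq hk.2, hp.idx_eq (by omega : j < r), if_neg (by omega), if_pos (by omega)]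
            omega)
  have hS' : insert (p (i + 1)) (U \ C) ∪ C \ {p i, p (i + 1)} = U.erase (p i) := by
    ext x
    simp only [mem_union, mem_insert, mem_singleton, mem_sdiff, mem_erase, not_or]
    constructor
    · rintro ((rfl | h) | h)
      · exact ⟨nab, aU⟩
      · exact ⟨fun e => h.2 (e ▸ bC), h.1⟩
      · exact ⟨h.2.1, hCU h.1⟩
    · rintro ⟨a, b⟩
      by_cases h0 : x = p (i + 1)
      · exact Or.inl (Or.inl h0)
      · by_cases h2 : x ∈ C
        · exact Or.inr ⟨h2, a, h0⟩
        · exact Or.inl (Or.inr ⟨b, h2⟩)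
  rw [hS'] at hc2
  have hcc : c1 (p (i + 1)) = c1 u := by
    rw [hc1 _ (mem_insert_self _ _), hc1 u (mem_insert_of_mem (mem_sdiff.mpr ⟨hu, huC⟩)), Function.update_self,
      Function.update_of_ne nau.symm]
  obtain ⟨c', _, h2⟩ := ext1 hs hi hc2 (notMem_erase _ _)
    (col_le2 (erase_subset _ _) (hd _ bU) aU hu nau eba hiu hcc)
  rw [insert_erase bU] at h2
  exact ⟨c', h2⟩

/-- the theorem of Brooks for maximum degree `d ≥ 3` -/
theorem brooks [NeZero d] (h3d : 3 ≤ d) (hs : ∀ u v, E u v → E v u) (hi : ∀ u, ¬ E u u)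
    (U : Finset V) (hd : ∀ v ∈ U, dg U E v ≤ d) (hk : NoK d U E) : Cold d U E := by
  induction hn : U.card using Nat.strong_induction_on generalizing U with
  | _ n ih =>
  -- colourings of proper subsets
  have sub : ∀ U' ⊆ U, U'.card < n → Cold d U' E := fun U' h1 h2 =>
    ih _ h2 U' (fun v hv => (dg_mono h1 v).trans (hd v (h1 hv))) (nk_mono h1 hk) rfl
  by_cases hlow : ∃ v ∈ U, dg U E v < d
  · obtain ⟨v, hv, hv2⟩ := hlow
    obtain ⟨c, hc⟩ := sub (U.erase v) (erase_subset _ _) (by
      rw [card_erase_of_mem hv]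
      have := card_pos.mpr ⟨v, hv⟩
      omega)
    obtain ⟨c', _, h2⟩ := ext1 hs hi (c := c) hc (notMem_erase v U)
      (card_image_le.trans_lt ((dg_mono (erase_subset _ _) v).trans_lt hv2))
    rw [insert_erase hv] at h2
    exact ⟨c', h2⟩
  push Not at hlow
  have hd3 : ∀ v ∈ U, 3 ≤ dg U E v := fun v hv => h3d.trans (hlow v hv)
  rcases U.eq_empty_or_nonempty with rfl | ⟨v2, hv2⟩
  · exact ⟨fun _ => 0, fun u hu => absurd hu (notMem_empty u)⟩
  -- two nonadjacent neighbours
  obtain ⟨v1, v3, h1, h3, n13, e1, e3, hnadj⟩ : ∃ v1 v3, v1 ∈ U ∧ v3 ∈ U ∧ v1 ≠ v3 ∧ E v2 v1 ∧ E v2 v3 ∧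
      ¬ E v1 v3 := by
    have h3 : (U.filter fun w => E v2 w).card = d := le_antisymm (hd v2 hv2) (hlow v2 hv2)
    by_contra hcon
    push Not at hcon
    apply hk
    refine ⟨insert v2 (U.filter fun w => E v2 w), insert_subset hv2 (filter_subset _ _), ?_, ?_⟩
    · rw [card_insert_of_notMem, h3]
      intro h
      exact hi _ (mem_filter.mp h).2
    · intro x hx y hy hxy
      rw [mem_insert] at hx hy
      rcases hx with rfl | hx
      · rcases hy with rfl | hy
        · exact absurd rfl hxy
        · exact (mem_filter.mp hy).2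
      · rcases hy with rfl | hy
        · exact hs _ _ (mem_filter.mp hx).2
        · rw [mem_filter] at hx hy
          exact hcon x y hx.1 hy.1 hxy hx.2 hy.2
  have n12 : v1 ≠ v2 := fun e => hi v2 (by rw [e] at e1; exact e1)
  have n23 : v2 ≠ v3 := fun e => hi v3 (by rw [e] at e3; exact e3)
  obtain ⟨r, p, hp, hmax⟩ := exists_max h1 hv2 h3 n12 n13 n23 (hs _ _ e1) e3
  have r3 := hp.three
  have hrc := hp.card_le
  rcases hrc.eq_or_lt with hr | hr
  · -- Hamiltonian path
    apply ham hs hi hd hd3 hnadj hp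
    have e1 : (range r).image p = U := by
      apply eq_of_subset_of_card_le
      · intro x hx
        obtain ⟨k, hk, rfl⟩ := mem_image.mp hx
        exact hp.mem k (mem_range.mp hk)
      · rw [card_image_of_injOn, card_range, hr]
        intro a ha b hb e
        exact hp.inj a (by simpa using ha) b (by simpa using hb) e
    intro u hu
    rw [← e1] at hu
    obtain ⟨k, hk, rfl⟩ := mem_image.mp hu
    exact ⟨k, mem_range.mp hk, rfl⟩
  · have hl : p (r - 1) ∈ U := hp.mem _ (by omega)
    have hex : ∃ k, k < r ∧ E (p (r - 1)) (p k) := by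
      have h5 : 0 < (U.filter fun w => E (p (r - 1)) w).card := lt_of_lt_of_le (by norm_num) (hd3 _ hl)
      obtain ⟨w, hw⟩ := card_pos.mp h5
      rw [mem_filter] at hw
      obtain ⟨k, hk, rfl⟩ := hmax w hw.1 hw.2
      exact ⟨k, hk, hw.2⟩
    obtain ⟨j, hj⟩ : ∃ j, j = Nat.find hex := ⟨_, rfl⟩
    have hj1 := Nat.find_spec hex
    have hj2 : ∀ k < r, E (p (r - 1)) (p k) → j ≤ k := by
      intro k hk e
      rw [hj]
      exact Nat.find_min' hex ⟨hk, e⟩
    rw [← hj] at hj1
    obtain ⟨C, hC⟩ : ∃ C : Finset V, C = (Ico j r).image p := ⟨_, rfl⟩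
    have hCU : C ⊆ U := by
      rw [hC]
      intro x hx
      obtain ⟨k, hk, rfl⟩ := mem_image.mp hx
      exact hp.mem k (mem_Ico.mp hk).2
    have hCc : C.card < n := by
      rw [hC]
      refine lt_of_le_of_lt card_image_le ?_
      rw [Nat.card_Ico]
      omega
    have hlast : ∀ w ∈ U, w ∉ C → ¬ E (p (r - 1)) w := by
      intro w hw hwC e
      obtain ⟨k, hk, rfl⟩ := hmax w hw e
      apply hwC
      rw [hC]
      exact mem_image_of_mem _ (mem_Ico.mpr ⟨hj2 k hk e, hk⟩)
    have hDc : (U \ C).card < n := by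
      have h6 : p j ∈ C := by
        rw [hC]
        exact mem_image_of_mem _ (mem_Ico.mpr ⟨le_rfl, hj1.1⟩)
      rw [← hn]
      apply card_lt_card
      rw [ssubset_iff_of_subset sdiff_subset]
      exact ⟨p j, hCU h6, fun h => (mem_sdiff.mp h).2 h6⟩
    obtain ⟨c, hc⟩ := sub (U \ C) sdiff_subset hDc
    by_cases hout : ∃ i, (j ≤ i ∧ i < r) ∧ ∃ u ∈ U, u ∉ C ∧ E (p i) u
    · -- the last index with an outer neighbour
      obtain ⟨I, hI⟩ : ∃ I : Finset ℕ, I = (range r).filter fun i => (j ≤ i ∧ i < r) ∧ ∃ u ∈ U, u ∉ C ∧ E (p i) u :=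
        ⟨_, rfl⟩
      have hIne : I.Nonempty := by
        obtain ⟨i, h7, h8⟩ := hout
        exact ⟨i, by rw [hI, mem_filter]; exact ⟨mem_range.mpr h7.2, h7, h8⟩⟩
      obtain ⟨i, hiI, himax⟩ := exists_max_image I id hIne
      have hiI' := hiI
      rw [hI, mem_filter] at hiI'
      obtain ⟨_, ⟨hji, hir⟩, u, hu, huC, hiu⟩ := hiI'
      have hir1 : i + 1 < r := by
        by_contra hcon
        have e : i = r - 1 := by omega
        rw [e] at hiu
        exact hlast u hu huC hiu
      refine cyc hs hi hd hp hj1.2 hC hji hir1 hu huC hiu ?_ hc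
      intro w hw hwC e
      have h9 : i + 1 ∈ I := by
        rw [hI, mem_filter]
        exact ⟨mem_range.mpr hir1, ⟨by omega, hir1⟩, w, hw, hwC, e⟩
      have h10 := himax _ h9
      simp only [id] at h10
      omega
    · push Not at hout
      obtain ⟨c1, hc1⟩ := sub C hCU hCc
      have hno : ∀ x ∈ C, ∀ y ∈ U, y ∉ C → ¬ E x y := by
        intro x hx y hy hyC e
        rw [hC] at hx
        obtain ⟨k, hk, rfl⟩ := mem_image.mp hx
        exact hout k (mem_Ico.mp hk) y hy hyC e
      refine ⟨fun v => if v ∈ C then c1 v else c v, fun x hx y hy e => ?_⟩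
      beta_reduce
      by_cases hxC : x ∈ C
      · by_cases hyC : y ∈ C
        · rw [if_pos hxC, if_pos hyC]
          exact hc1 x hxC y hyC e
        · exact absurd e (hno x hxC y hy hyC)
      · by_cases hyC : y ∈ C
        · exact absurd (hs _ _ e) (hno y hyC x hx hxC)
        · rw [if_neg hxC, if_neg hyC]
          exact hc x (mem_sdiff.mpr ⟨hx, hxC⟩) y (mem_sdiff.mpr ⟨hy, hyC⟩) e

open SimpleGraph Pool.Agent.Helper96.CT in
theorem st_BR : ST_BR := by
  intro V _ F d h3d hconn hdl hcard
  have : NeZero d := ⟨by omega⟩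
  have hb := brooks (E := F.Adj) (d := d) h3d (fun u v h => h.symm) (fun u h => F.loopless.irrefl u h)
    (Finset.univ : Finset V) (fun v _ => hdl v _ (fun x hx => (mem_filter.mp hx).2)) (by
      rintro ⟨Q, -, hQc, hQ⟩
      have hQne : Q.Nonempty := card_pos.mp (by omega)
      obtain ⟨x0, hx0⟩ := hQne
      obtain ⟨y0, hy0⟩ : ∃ y, y ∉ Q := by
        by_contra hcon
        push Not at hcon
        have : Q = Finset.univ := eq_univ_iff_forall.mpr hcon
        rw [this, card_univ] at hQc
        omega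
      obtain ⟨p⟩ := hconn.preconnected x0 y0
      obtain ⟨e, -, he1, he2⟩ := p.exists_boundary_dart (Q : Set V) (by exact_mod_cast hx0)
        (by exact_mod_cast hy0)
      have he1' : e.fst ∈ Q := by exact_mod_cast he1
      have he2' : e.snd ∉ Q := by exact_mod_cast he2
      have h1 := hdl e.fst (insert e.snd (Q.erase e.fst)) (by
        intro x hx
        rw [mem_insert] at hx
        rcases hx with rfl | hx
        · exact e.adj
        · rw [mem_erase] at hx
          exact hQ _ he1' _ hx.2 (Ne.symm hx.1))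
      rw [card_insert_of_notMem (fun h => he2' (mem_erase.mp h).2), card_erase_of_mem he1', hQc] at h1
      omega)
  obtain ⟨c, hc⟩ := hb
  exact ⟨Coloring.mk c (fun {u v} h => hc u (mem_univ _) v (mem_univ _) h)⟩

end Pool.Agent.Helper51.CT
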