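import Pool.Agent.Helper64.CT.Stmts

set_option autoImplicit false

/-! Module CL2 of MP_866009_co: clusters. -/

namespace Pool.Agent.Helper64.CT

theorem cl2_share {V : Type} {G : SimpleGraph V} {c b z : V} (h : Conf G c b z) :
    ∃ u n, Comp G c z u ∧ n ∈ Att G c b ∧ n ∈ Att G c z ∧ G.Adj u n ∧
      ∃ m ∈ Att G c b, ¬ G.Adj u m := by
  obtain ⟨_, _, u, hu, ⟨n, hn, hun⟩, m, hm, hum⟩ := h
  exact ⟨u, n, hu, hn, ⟨hn.1, u, hu, hun.symm⟩, hun, m, hm, hum⟩

theorem cl2_one {V : Type} {G : SimpleGraph V} {c x y : V} (hle : Le G c x y)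
    (hcl : ¬ Clu G c x y) : ∀ z, Clu G c x z → Le G c z y := by
  intro z hz
  induction hz with
  | refl => exact hle
  | @tail b z hb hbz ih =>
    have hxz : Clu G c x z := Relation.ReflTransGen.tail hb hbz
    rcases hbz with h | h
    · obtain ⟨⟨n, hn1, hn2⟩, h2⟩ := ih
      have e := Att.congr h
      refine ⟨⟨n, ?_, hn2⟩, ?_⟩
      · rw [← e]; exact hn1
      · intro u hu
        rw [← e]
        exact h2 u hu
    · obtain ⟨⟨n, hn1, hn2⟩, h2⟩ := ih
      obtain ⟨u, n1, hu, hn1b, hn1z, hun1, m, hm, hum⟩ := cl2_share h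
      obtain ⟨w, hw, hnw⟩ := hn2.2
      have hall : ∀ n' ∈ Att G c b, G.Adj w n' := by
        intro n' hn'
        by_contra hcon
        exact h2 w hw ⟨⟨n, hn1, hnw.symm⟩, n', hn', hcon⟩
      have hsub : ∀ n' ∈ Att G c b, n' ∈ Att G c y := by
        intro n' hn'
        exact ⟨hn'.1, w, hw, (hall n' hn').symm⟩
      refine ⟨⟨n1, hn1z, hsub n1 hn1b⟩, ?_⟩
      intro w' hw' hmix
      apply hcl
      refine Relation.ReflTransGen.tail hxz (Or.inr ⟨?_, ?_, ?_⟩)
      · intro hc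
        exact hcl (Relation.ReflTransGen.tail hxz (Or.inl hc))
      · exact ⟨u, hu, ⟨n1, hsub n1 hn1b, hun1⟩, m, hsub m hm, hum⟩
      · exact ⟨w', hw', hmix⟩

theorem st_CL2 : ST_CL2 := by
  intro V G c x y _ _ hle hcl
  have h1 := cl2_one hle hcl
  refine ⟨h1, ?_⟩
  intro u hu
  by_cases hex : ∃ z n, Clu G c x z ∧ n ∈ Att G c z ∧ G.Adj u n
  · left
    obtain ⟨z0, n0, hz0, hn0, hun0⟩ := hex
    have hstart : ∀ n ∈ Att G c z0, G.Adj u n := by
      intro n hn
      by_contra hcon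
      exact (h1 z0 hz0).2 u hu ⟨⟨n0, hn0, hun0⟩, n, hn, hcon⟩
    have key : ∀ z, Clu G c z0 z → Clu G c x z ∧ ∀ n ∈ Att G c z, G.Adj u n := by
      intro z hz
      induction hz with
      | refl => exact ⟨hz0, hstart⟩
      | @tail b z hb hbz ih =>
        have hxz : Clu G c x z := Relation.ReflTransGen.tail ih.1 hbz
        refine ⟨hxz, ?_⟩
        rcases hbz with h | h
        · rw [← Att.congr h]; exact ih.2
        · obtain ⟨u', n1, _, hn1b, hn1z, _, _⟩ := cl2_share h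
          intro n hn
          by_contra hcon
          exact (h1 z hxz).2 u hu ⟨⟨n1, hn1z, ih.2 n1 hn1b⟩, n, hn, hcon⟩
    intro z n hz hn
    exact (key z (Relation.ReflTransGen.trans (Clu.symm hz0) hz)).2 n hn
  · right
    intro z n hz hn hun
    exact hex ⟨z, n, hz, hn, hun⟩

end Pool.Agent.Helper64.CT
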