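import Pool.Agent.Helper96.CT.Stmts2

/-!
# Row GR: greedy extension of an embedding of a subtree
-/

set_option autoImplicit false

namespace Pool.Agent.Helper51.CT

open SimpleGraph Pool.Agent.Helper96.CT

/-- a vertex outside a connected set has at most one neighbour in it -/
theorem gr_unique {W : Type} (T : SimpleGraph W) (hT : T.IsAcyclic) (S : Set W)
    (hS : (T.induce S).Connected) (w b b' : W) (hw : w ∉ S) (hb : b ∈ S) (hb' : b' ∈ S)
    (h1 : T.Adj w b) (h2 : T.Adj w b') : b = b' := by
  classical
  by_contra hne
  obtain ⟨p⟩ := hS.preconnected ⟨b, hb⟩ ⟨b', hb'⟩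
  have hnbw : b ≠ w := h1.ne'
  have hnwb' : w ≠ b' := h2.ne
  let q1 : T.Path b b' := p.toPath.mapEmbedding (SimpleGraph.Embedding.induce S)
  let q2 : T.Path b b' := ⟨Walk.cons h1.symm (Walk.cons h2 Walk.nil), by
    simp only [Walk.cons_isPath_iff, Walk.IsPath.nil, Walk.support_nil, Walk.support_cons,
      List.mem_cons, List.not_mem_nil, or_false, true_and]
    exact ⟨hnwb', fun h => h.elim hnbw hne⟩⟩
  have he : q1 = q2 := (hT.subsingleton_path b b').elim q1 q2
  have hw2 : w ∈ (q2 : T.Walk b b').support := by
    show w ∈ (Walk.cons h1.symm (Walk.cons h2 Walk.nil)).support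
    simp
  rw [← he] at hw2
  have hw3 : w ∈ (Walk.map (SimpleGraph.Embedding.induce (G := T) S).toHom p.toPath.1).support :=
    hw2
  rw [Walk.support_map, List.mem_map] at hw3
  obtain ⟨x, -, hx⟩ := hw3
  exact hw (hx ▸ x.2)

theorem st_GR : ST_GR := by
  intro W V _ _ T F H D hT hMD
  have main : ∀ (n : ℕ) (S A : Finset W) (φ : W → V), (A \ S).card = n → S ⊆ A →
      A.card ≤ D + 1 → (T.induce (S : Set W)).Connected → (T.induce (A : Set W)).Connected →
      (∀ w ∈ S, φ w ∈ H) → (∀ u ∈ S, ∀ w ∈ S, φ u = φ w → u = w) →
      (∀ u ∈ S, ∀ w ∈ S, T.Adj u w → F.Adj (φ u) (φ w)) →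
      ∃ ψ : W → V, (∀ w ∈ S, ψ w = φ w) ∧ (∀ w ∈ A, ψ w ∈ H) ∧
      (∀ u ∈ A, ∀ w ∈ A, ψ u = ψ w → u = w) ∧
      ∀ u ∈ A, ∀ w ∈ A, T.Adj u w → F.Adj (ψ u) (ψ w) := by
    classical
    intro n
    induction n with
    | zero =>
      intro S A φ hn hSA _ _ _ h1 h2 h3
      have hAS : A ⊆ S := by
        rw [Finset.card_eq_zero, Finset.sdiff_eq_empty_iff_subset] at hn
        exact hn
      exact ⟨φ, fun _ _ => rfl, fun w hw => h1 w (hAS hw), fun u hu w hw => h2 u (hAS hu) w (hAS hw),
        fun u hu w hw => h3 u (hAS hu) w (hAS hw)⟩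
    | succ n ih =>
      intro S A φ hn hSA hA hS hAc h1 h2 h3
      obtain ⟨a0, ha0⟩ : (A \ S).Nonempty := Finset.card_pos.mp (by omega)
      rw [Finset.mem_sdiff] at ha0
      obtain ⟨s0⟩ := hS.nonempty
      have hs0 : (s0 : W) ∈ S := by exact_mod_cast s0.2
      obtain ⟨p⟩ := hAc.preconnected ⟨(s0 : W), by exact_mod_cast hSA hs0⟩
        ⟨a0, by exact_mod_cast ha0.1⟩
      obtain ⟨e, -, he1, he2⟩ := p.exists_boundary_dart {x | (x : W) ∈ S} hs0 ha0.2
      obtain ⟨b, hb⟩ : ∃ b, b = (e.fst : W) := ⟨_, rfl⟩
      obtain ⟨w, hw⟩ : ∃ w, w = (e.snd : W) := ⟨_, rfl⟩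
      have hbS : b ∈ S := by rw [hb]; exact he1
      have hwS : w ∉ S := by rw [hw]; exact he2
      have hwA : w ∈ A := by rw [hw]; exact_mod_cast e.snd.2
      have hbw : T.Adj b w := by rw [hb, hw]; exact e.adj
      -- image of the new vertex
      obtain ⟨I, hIH, hIadj, hID⟩ := hMD (φ b) (h1 b hbS)
      obtain ⟨x, hxI, hxU⟩ : ∃ x ∈ I, x ∉ (S.image φ).erase (φ b) := by
        by_contra hcon
        push Not at hcon
        have c1 : I.card ≤ ((S.image φ).erase (φ b)).card := Finset.card_le_card hcon
        rw [Finset.card_erase_of_mem (Finset.mem_image_of_mem _ hbS)] at c1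
        have c2 : (S.image φ).card ≤ S.card := Finset.card_image_le
        have c3 : S.card < A.card := Finset.card_lt_card
          (Finset.ssubset_iff_subset_ne.mpr ⟨hSA, fun h => hwS (h ▸ hwA)⟩)
        have c4 : 0 < S.card := Finset.card_pos.mpr ⟨b, hbS⟩
        have c5 : 0 < (S.image φ).card := Finset.card_pos.mpr ⟨_, Finset.mem_image_of_mem _ hbS⟩
        omega
      have hbx : F.Adj (φ b) x := hIadj x hxI
      have hxim : x ∉ S.image φ := by
        intro h
        exact hxU (Finset.mem_erase.mpr ⟨hbx.ne', h⟩)
      have hne : ∀ u ∈ S, u ≠ w := fun u hu e => hwS (e ▸ hu)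
      have hup : ∀ u ∈ S, Function.update φ w x u = φ u := fun u hu =>
        Function.update_of_ne (hne u hu) _ _
      obtain ⟨ψ, g1, g2, g3, g4⟩ := ih (insert w S) A (Function.update φ w x)
        (by
          have e1 : A \ insert w S = (A \ S).erase w := by
            ext y
            simp only [Finset.mem_sdiff, Finset.mem_insert, Finset.mem_erase, not_or]
            tauto
          rw [e1, Finset.card_erase_of_mem (Finset.mem_sdiff.mpr ⟨hwA, hwS⟩), hn]
          rfl)
        (Finset.insert_subset hwA hSA) hA
        (by
          have e1 : ((insert w S : Finset W) : Set W) = (S : Set W) ∪ {b, w} := by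
            ext y
            simp only [Finset.coe_insert, Set.mem_insert_iff, Finset.mem_coe, Set.mem_union,
              Set.mem_singleton_iff]
            constructor
            · rintro (rfl | h)
              · exact Or.inr (Or.inr rfl)
              · exact Or.inl h
            · rintro (h | rfl | rfl)
              · exact Or.inr h
              · exact Or.inr hbS
              · exact Or.inl rfl
          rw [e1]
          exact induce_union_connected hS.preconnected
            (induce_pair_connected_of_adj hbw).preconnected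
            ⟨b, by exact_mod_cast hbS, Set.mem_insert _ _⟩)
        hAc
        (by
          intro u hu
          rw [Finset.mem_insert] at hu
          rcases hu with rfl | hu
          · rw [Function.update_self]
            exact hIH hxI
          · rw [hup u hu]
            exact h1 u hu)
        (by
          intro u hu v hv huv
          rw [Finset.mem_insert] at hu hv
          rcases hu with rfl | hu
          · rcases hv with rfl | hv
            · rfl
            · rw [Function.update_self, hup v hv] at huv
              exact absurd (Finset.mem_image.mpr ⟨v, hv, huv.symm⟩) hxim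
          · rcases hv with rfl | hv
            · rw [Function.update_self, hup u hu] at huv
              exact absurd (Finset.mem_image.mpr ⟨u, hu, huv⟩) hxim
            · rw [hup u hu, hup v hv] at huv
              exact h2 u hu v hv huv)
        (by
          have key : ∀ v ∈ S, T.Adj w v → F.Adj x (φ v) := by
            intro v hv hwv
            have e1 : b = v := gr_unique T hT (S : Set W) hS w b v (by exact_mod_cast hwS)
              (by exact_mod_cast hbS) (by exact_mod_cast hv) hbw.symm hwv
            rw [← e1]
            exact hbx.symm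
          intro u hu v hv huv
          rw [Finset.mem_insert] at hu hv
          rcases hu with rfl | hu
          · rcases hv with rfl | hv
            · exact absurd huv (T.irrefl)
            · rw [Function.update_self, hup v hv]
              exact key v hv huv
          · rcases hv with rfl | hv
            · rw [Function.update_self, hup u hu]
              exact (key u hu huv.symm).symm
            · rw [hup u hu, hup v hv]
              exact h3 u hu v hv huv)
      refine ⟨ψ, fun u hu => ?_, g2, g3, g4⟩
      rw [g1 u (Finset.mem_insert_of_mem hu), hup u hu]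
  intro S A φ hSA hA hS hAc h1 h2 h3
  exact main _ S A φ rfl hSA hA hS hAc h1 h2 h3

end Pool.Agent.Helper51.CT
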