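import Pool.Agent.Helper96.CT.Stmts3

/-!
# Row NC: trees whose branches at one vertex are small are not in a chain of cliques
-/

set_option autoImplicit false

namespace Pool.Agent.Helper51.CT

open SimpleGraph Pool.Agent.Helper96.CT

/-- a set with only one exit is connected -/
theorem nc_conn {W : Type} (T : SimpleGraph W) (hT : T.Connected) (A : Set W) (x : W) (hx : x ∉ A)
    (hun : ∀ p q p' q', p ∈ A → q ∉ A → T.Adj p q → p' ∈ A → q' ∉ A → T.Adj p' q' → p = p') :
    (T.induce A).Preconnected := by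
  have key : ∀ (u : W) (hu : u ∈ A), ∃ (p : W) (hp : p ∈ A) (q : W), q ∉ A ∧ T.Adj p q ∧
      (T.induce A).Reachable ⟨u, hu⟩ ⟨p, hp⟩ := by
    intro u hu
    obtain ⟨w⟩ := hT.preconnected u x
    obtain ⟨d, -, ⟨hp, hr⟩, h2⟩ := w.exists_boundary_dart
      {v | ∃ hv : v ∈ A, (T.induce A).Reachable ⟨u, hu⟩ ⟨v, hv⟩} ⟨hu, Reachable.refl _⟩
      (fun h => hx h.1)
    refine ⟨d.fst, hp, d.snd, ?_, d.adj, hr⟩
    intro hq
    exact h2 ⟨hq, hr.trans (Adj.reachable
      (show (T.induce A).Adj ⟨d.fst, hp⟩ ⟨d.snd, hq⟩ from d.adj))⟩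
  rintro ⟨u, hu⟩ ⟨v, hv⟩
  obtain ⟨p, hp, q, hq, hpq, hr⟩ := key u hu
  obtain ⟨p', hp', q', hq', hpq', hr'⟩ := key v hv
  obtain rfl := hun p q p' q' hp hq hpq hp' hq' hpq'
  exact hr.trans hr'.symm

theorem st_NC : ST_NC := by
  classical
  intro W V _ T F a c x hT hcard hB hC hcon
  obtain ⟨hC1, hC2, hC3⟩ := hC
  obtain ⟨f⟩ := hcon
  have hf : Function.Injective f := f.injective
  have hadj : ∀ u v, T.Adj u v → F.Adj (f u) (f v) := fun u v h => f.toHom.map_adj h
  have hstep : ∀ u v, T.Adj u v → c (f u) = c (f v) ∨ c (f v) = c (f u) + 1 ∨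
      c (f u) = c (f v) + 1 := fun u v h => hC2 _ _ (hadj u v h)
  obtain ⟨i, hi⟩ : ∃ i, i = c (f x) := ⟨_, rfl⟩
  have bound : ∀ A : Finset W, x ∉ A →
      (∀ p q p' q', p ∈ A → q ∉ A → T.Adj p q → p' ∈ A → q' ∉ A → T.Adj p' q' → p = p') →
      A.card ≤ a := by
    intro A hxA hun
    rcases A.eq_empty_or_nonempty with rfl | ⟨u, hu⟩
    · simp
    · refine hB A hxA ?_
      have hpre := nc_conn T hT (A : Set W) x (by exact_mod_cast hxA) (by exact_mod_cast hun)
      have : Nonempty ((A : Set W) : Type) := ⟨⟨u, by exact_mod_cast hu⟩⟩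
      exact Connected.mk hpre
  have b1 : (Finset.univ.filter fun u => i < c (f u)).card ≤ a := by
    refine bound _ (by simp [hi]) ?_
    intro p q p' q' hp hq h hp' hq' h'
    simp only [Finset.mem_filter, Finset.mem_univ, true_and, not_lt] at hp hq hp' hq'
    have e1 := hstep p q h
    have e2 := hstep p' q' h'
    exact hf (hC3 (f q) (f p) (f q') (f p') (hadj _ _ h.symm) (hadj _ _ h'.symm) (by omega)
      (by omega) (by omega)).2
  have b2 : (Finset.univ.filter fun u => c (f u) < i).card ≤ a := by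
    refine bound _ (by simp [hi]) ?_
    intro p q p' q' hp hq h hp' hq' h'
    simp only [Finset.mem_filter, Finset.mem_univ, true_and, not_lt] at hp hq hp' hq'
    have e1 := hstep p q h
    have e2 := hstep p' q' h'
    exact hf (hC3 (f p) (f q) (f p') (f q') (hadj _ _ h) (hadj _ _ h') (by omega)
      (by omega) (by omega)).1
  have b3 : (Finset.univ.filter fun u => c (f u) = i).card ≤ a := by
    have h1 := hC1 i ((Finset.univ.filter fun u => c (f u) = i).image f) (by
      intro y hy
      rw [Finset.mem_image] at hy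
      obtain ⟨u, hu, rfl⟩ := hy
      exact (Finset.mem_filter.mp hu).2)
    rwa [Finset.card_image_of_injective _ hf] at h1
  have hall : (Finset.univ : Finset W) ⊆ (Finset.univ.filter fun u => i < c (f u)) ∪
      ((Finset.univ.filter fun u => c (f u) < i) ∪ Finset.univ.filter fun u => c (f u) = i) := by
    intro u _
    simp only [Finset.mem_union, Finset.mem_filter, Finset.mem_univ, true_and]
    omega
  have h1 := Finset.card_le_card hall
  have h2 := Finset.card_union_le (Finset.univ.filter fun u => i < c (f u))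
    ((Finset.univ.filter fun u => c (f u) < i) ∪ Finset.univ.filter fun u => c (f u) = i)
  have h3 := Finset.card_union_le (Finset.univ.filter fun u => c (f u) < i)
    (Finset.univ.filter fun u => c (f u) = i)
  rw [Finset.card_univ] at h1
  omega

end Pool.Agent.Helper51.CT
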